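import Pool.Agent.Helper96.GU.StF

set_option autoImplicit false

namespace Pool.Agent.Helper60.GF

open Pool.Agent.Helper96.UT hiding StTOP TopV TopE tht Bd VC EC
open Pool.Agent.Helper96.GU

theorem tHPF : StHPF := by
  intro α r Z hr
  have hn : (0 : ℤ) < Z.n := by exact_mod_cast Z.pos
  have hs : Z.s ∈ Hp r Z := by
    refine Subgroup.subset_closure ⟨(Z.n : ℤ), 0, 1, isUnit_one, ?_, ?_⟩
    · rw [one_mul]
      have h := sg_add_mul r Z 0 1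
      rw [zero_add, one_mul] at h
      exact h
    · rw [pre_zero, inv_one, mul_one]
      rfl
  refine ⟨hs, ?_⟩
  let S : Set (FreeGroup α) :=
    insert Z.s ((fun p : ℕ × ℕ => pre Z.c (p.1 : ℤ) * (pre Z.c (p.2 : ℤ))⁻¹) ''
      {p : ℕ × ℕ | p.1 < Z.n ∧ p.2 < Z.n ∧
        ∃ u : IM r, IsUnit u ∧ sg r Z (p.1 : ℤ) = u * sg r Z (p.2 : ℤ)})
  have hfin : S.Finite := by
    refine Set.Finite.insert _ (Set.Finite.image _ ?_)
    refine Set.Finite.subset ((Set.finite_Iio Z.n).prod (Set.finite_Iio Z.n)) ?_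
    rintro ⟨a, b⟩ ⟨h1, h2, -⟩
    exact ⟨h1, h2⟩
  rw [Subgroup.fg_iff]
  refine ⟨S, le_antisymm ?_ ?_, hfin⟩
  · rw [Subgroup.closure_le]
    rintro g (rfl | ⟨p, ⟨-, -, u, hu, h⟩, rfl⟩)
    · exact hs
    · exact Subgroup.subset_closure ⟨_, _, u, hu, h, rfl⟩
  · unfold Hp
    rw [Subgroup.closure_le]
    rintro g ⟨j, k, u, hu, h, rfl⟩
    have hsS : Z.s ∈ Subgroup.closure S := Subgroup.subset_closure (Set.mem_insert _ _)
    have key : ∀ i : ℤ, ∃ (i' : ℕ) (a : ℤ), i' < Z.n ∧ i = (i' : ℤ) + a * Z.n := by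
      intro i
      refine ⟨(i % (Z.n : ℤ)).toNat, i / (Z.n : ℤ), ?_, ?_⟩
      · have h1 := Int.emod_lt_of_pos i hn
        have h2 := Int.emod_nonneg i hn.ne'
        omega
      · have h2 := Int.emod_nonneg i hn.ne'
        rw [Int.toNat_of_nonneg h2]
        have h3 := Int.emod_add_mul_ediv i (Z.n : ℤ)
        linarith [mul_comm (Z.n : ℤ) (i / (Z.n : ℤ))]
    obtain ⟨j', a, hj, rfl⟩ := key j
    obtain ⟨k', b, hk, rfl⟩ := key k
    rw [sg_add_mul, sg_add_mul] at h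
    change pre Z.c ((j' : ℤ) + a * Z.n) * (pre Z.c ((k' : ℤ) + b * Z.n))⁻¹ ∈
      Subgroup.closure S
    rw [Z.pre_add_mul, Z.pre_add_mul]
    have e : Z.s ^ a * pre Z.c (j' : ℤ) * (Z.s ^ b * pre Z.c (k' : ℤ))⁻¹ =
        Z.s ^ a * (pre Z.c (j' : ℤ) * (pre Z.c (k' : ℤ))⁻¹) * (Z.s ^ b)⁻¹ := by group
    rw [e]
    refine mul_mem (mul_mem (zpow_mem hsS _) ?_) (inv_mem (zpow_mem hsS _))
    exact Subgroup.subset_closure
      (Set.mem_insert_of_mem _ ⟨(j', k'), ⟨hj, hk, u, hu, h⟩, rfl⟩)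

end Pool.Agent.Helper60.GF
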